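import Pool.Agent.R868.SSh.Word

set_option autoImplicit false

namespace Pool.Agent.R868.SSh

def alive : ℕ → List ℕ → List ℕ → List ℕ → Bool
  | D + 1, y0 :: y, u0 :: u, v0 :: v =>
    (y0 == u0 && alive D y u (v0 :: v)) || (y0 == v0 && alive D y (u0 :: u) v)
  | _, _, _, _ => true

def dev1 (y u v : List ℕ) : Bool :=
  match y, u with
  | y0 :: y, u0 :: u => y0 == u0 && alive 5 y u v
  | _, _ => true

def dev2 (y u v : List ℕ) : Bool :=
  match y, v with
  | y0 :: y, v0 :: v => y0 == v0 && alive 5 y u v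
  | _, _ => true

/-- a steering of the word, with the two pointers -/
structure Path (x : ℕ → ℕ) (s : ℕ → Prop) (i j : ℕ → ℕ) : Prop where
  i0 : i 0 = 0
  j0 : j 0 = 0
  one : ∀ n, s n → x n = x (i n) ∧ i (n + 1) = i n + 1 ∧ j (n + 1) = j n
  two : ∀ n, ¬ s n → x n = x (j n) ∧ i (n + 1) = i n ∧ j (n + 1) = j n + 1

variable {x : ℕ → ℕ} {s : ℕ → Prop} {i j : ℕ → ℕ}

lemma Path.alive (h : Path x s i j) (D n : ℕ) (y u v : List ℕ) (hy : Pre x n y)
    (hu : Pre x (i n) u) (hv : Pre x (j n) v) : alive D y u v = true := by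
  induction D generalizing n y u v with
  | zero => simp [SSh.alive]
  | succ D ih =>
    cases y with
    | nil => simp [SSh.alive]
    | cons y0 y =>
      cases u with
      | nil => simp [SSh.alive]
      | cons u0 u =>
        cases v with
        | nil => simp [SSh.alive]
        | cons v0 v =>
          rw [SSh.alive]
          by_cases hs : s n
          · obtain ⟨h1, h2, h3⟩ := h.one n hs
            have e : y0 = u0 := by rw [← hy.1, ← hu.1, h1]
            have := ih (n + 1) y u (v0 :: v) hy.2 (by rw [h2]; exact hu.2) (by rw [h3]; exact hv)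
            simp [e, this]
          · obtain ⟨h1, h2, h3⟩ := h.two n hs
            have e : y0 = v0 := by rw [← hy.1, ← hv.1, h1]
            have := ih (n + 1) y (u0 :: u) v hy.2 (by rw [h2]; exact hu) (by rw [h3]; exact hv.2)
            simp [e, this]

lemma Path.dev1 (h : Path x s i j) (n : ℕ) (y u v : List ℕ) (hy : Pre x n y)
    (hu : Pre x (i n) u) (hv : Pre x (j n) v) (hs : s n) : dev1 y u v = true := by
  cases y with
  | nil => simp [SSh.dev1]
  | cons y0 y =>
    cases u with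
    | nil => simp [SSh.dev1]
    | cons u0 u =>
      obtain ⟨h1, h2, h3⟩ := h.one n hs
      have e : y0 = u0 := by rw [← hy.1, ← hu.1, h1]
      have := h.alive 5 (n + 1) y u v hy.2 (by rw [h2]; exact hu.2) (by rw [h3]; exact hv)
      simp [SSh.dev1, e, this]

lemma Path.dev2 (h : Path x s i j) (n : ℕ) (y u v : List ℕ) (hy : Pre x n y)
    (hu : Pre x (i n) u) (hv : Pre x (j n) v) (hs : ¬ s n) : dev2 y u v = true := by
  cases y with
  | nil => simp [SSh.dev2]
  | cons y0 y =>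
    cases v with
    | nil => simp [SSh.dev2]
    | cons v0 v =>
      obtain ⟨h1, h2, h3⟩ := h.two n hs
      have e : y0 = v0 := by rw [← hy.1, ← hv.1, h1]
      have := h.alive 5 (n + 1) y u v hy.2 (by rw [h2]; exact hu) (by rw [h3]; exact hv.2)
      simp [SSh.dev2, e, this]

def chkM (w : List ℕ) : Bool :=
  !dev1 (outs w) (w.drop 2) w && (!dev2 ((outs w).drop 1) (w.drop 2) (w.drop 1) &&
  (!dev2 ((outs w).drop 2) (w.drop 3) (w.drop 1) && (!dev1 ((outs w).drop 3) (w.drop 4) (w.drop 1) &&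
  (!dev1 ((outs w).drop 4) (w.drop 4) (w.drop 2) && !dev2 ((outs w).drop 5) (w.drop 4) (w.drop 3)))))

def pre0 : List ℕ := [0, 1, 2, 3, 4, 5, 6, 0, 1, 2, 3, 4]

def chkT (w : List ℕ) : Bool :=
  !dev2 w w pre0 && (!dev2 (w.drop 1) (w.drop 1) pre0 && !dev2 (w.drop 2) (w.drop 2) pre0)

lemma chkM_all : (w0 :: SS).all chkM = true := by decide +kernel

lemma chkT_all : SS.all chkT = true := by decide +kernel

lemma pre_pre0 : Pre xw 0 pre0 := by
  simp only [pre0, Pre, and_true]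
  refine ⟨xw_lt _ (by norm_num), xw_lt _ (by norm_num), xw_lt _ (by norm_num),
    xw_lt _ (by norm_num), xw_lt _ (by norm_num), xw_lt _ (by norm_num), xw_lt _ (by norm_num),
    xw_mid _ (by norm_num) (by norm_num), xw_mid _ (by norm_num) (by norm_num),
    xw_mid _ (by norm_num) (by norm_num), xw_mid _ (by norm_num) (by norm_num),
    xw_mid _ (by norm_num) (by norm_num)⟩

/-- the steering of `xw` -/
def st (n : ℕ) : Prop := n < 7 ∨ (12 ≤ n ∧ (n % 6 = 1 ∨ n % 6 = 2 ∨ n % 6 = 5))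

lemma Path.triv (h : Path xw s i j) (n : ℕ) (hn : 8 ≤ n) (hi : i n = n) (hj : j n = 0) : s n := by
  by_contra hs
  obtain ⟨k, hk, c, hc, rfl⟩ : ∃ k, 1 ≤ k ∧ ∃ c, c < 3 ∧ n = 5 + 3 * k + c :=
    ⟨(n - 5) / 3, by omega, (n - 5) % 3, Nat.mod_lt _ (by norm_num), by omega⟩
  have hw := List.all_eq_true.1 chkT_all _ ((mem_all k).2 hk)
  have hp := (pre_win k).drop c
  have := h.dev2 _ _ _ pre0 hp (by rw [hi]; exact hp) (by rw [hj]; exact pre_pre0) hs
  simp only [chkT, Bool.and_eq_true, Bool.not_eq_true'] at hw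
  interval_cases c
  · simp only [List.drop_zero] at this
    rw [hw.1] at this
    simp at this
  · rw [hw.2.1] at this
    simp at this
  · rw [hw.2.2] at this
    simp at this

lemma Path.start (h : Path xw s i j) (h0 : s 0) (n : ℕ) (hn : n ≤ 7) : i n = n ∧ j n = 0 ∧
    (n < 7 → s n) := by
  induction n with
  | zero => exact ⟨h.i0, h.j0, fun _ => h0⟩
  | succ n ih =>
    obtain ⟨h1, h2, h3⟩ := ih (by omega)
    obtain ⟨-, h5, h6⟩ := h.one n (h3 (by omega))
    refine ⟨by rw [h5, h1], by rw [h6, h2], fun hn' => ?_⟩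
    by_contra hs
    have := (h.two (n + 1) hs).1
    rw [h6, h2, xw_lt _ hn', xw_lt _ (by norm_num)] at this
    omega

lemma Path.seven (h : Path xw s i j) (h0 : s 0) (hinf : ∃ n, 8 ≤ n ∧ ¬ s n) : ¬ s 7 := by
  intro h7
  obtain ⟨h1, h2, -⟩ := h.start h0 7 le_rfl
  have key : ∀ m, i (8 + m) = 8 + m ∧ j (8 + m) = 0 := by
    intro m
    induction m with
    | zero =>
      obtain ⟨-, h3, h4⟩ := h.one 7 h7
      exact ⟨by rw [add_zero, h3, h1], by rw [add_zero, h4, h2]⟩
    | succ m ih =>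
      have hs := h.triv (8 + m) (by omega) ih.1 ih.2
      obtain ⟨-, h3, h4⟩ := h.one _ hs
      exact ⟨by rw [← add_assoc, h3, ih.1], by rw [← add_assoc, h4, ih.2]⟩
  obtain ⟨n, hn, hs⟩ := hinf
  obtain ⟨m, rfl⟩ := Nat.exists_eq_add_of_le hn
  exact hs (h.triv _ hn (key m).1 (key m).2)

lemma Path.mid (h : Path xw s i j) (h0 : s 0) (hinf : ∃ n, 8 ≤ n ∧ ¬ s n) (m : ℕ) (hm : m < 5) :
    i (8 + m) = 7 ∧ j (8 + m) = 1 + m ∧ (m < 4 → ¬ s (8 + m)) := by
  have h7 := h.seven h0 hinf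
  obtain ⟨h1, h2, -⟩ := h.start h0 7 le_rfl
  induction m with
  | zero =>
    obtain ⟨-, h3, h4⟩ := h.two 7 h7
    refine ⟨by rw [add_zero, h3, h1], by rw [add_zero, h4, h2], fun _ hs => ?_⟩
    have := (h.one _ hs).1
    rw [add_zero, h3, h1, xw_mid 8 (by norm_num) (by norm_num),
      xw_mid 7 (by norm_num) (by norm_num)] at this
    omega
  | succ m ih =>
    obtain ⟨h3, h4, h5⟩ := ih (by omega)
    obtain ⟨-, h6, h8⟩ := h.two _ (h5 (by omega))
    refine ⟨by rw [← add_assoc, h6, h3], by rw [← add_assoc, h8, h4]; omega, fun hm hs => ?_⟩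
    have := (h.one _ hs).1
    rw [← add_assoc, h6, h3, xw_mid 7 (by norm_num) (by norm_num),
      xw_mid _ (by omega) (by omega)] at this
    omega

/-- one period of the steering -/
lemma Path.period (h : Path xw s i j) (k : ℕ) (hi : i (12 + 6 * k) = 7 + 3 * k)
    (hj : j (12 + 6 * k) = 5 + 3 * k) :
    ¬ s (12 + 6 * k) ∧ s (13 + 6 * k) ∧ s (14 + 6 * k) ∧ ¬ s (15 + 6 * k) ∧ ¬ s (16 + 6 * k) ∧
      s (17 + 6 * k) ∧ i (18 + 6 * k) = 10 + 3 * k ∧ j (18 + 6 * k) = 8 + 3 * k := by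
  have hw := List.all_eq_true.1 chkM_all _ (mem_all k).1
  simp only [chkM, Bool.and_eq_true, Bool.not_eq_true'] at hw
  obtain ⟨c0, c1, c2, c3, c4, c5⟩ := hw
  have po := pre_outs k
  have pw := pre_win k
  have po' : ∀ m n, n = 12 + 6 * k + m → Pre xw n ((outs (win k)).drop m) := by
    rintro m n rfl; exact po.drop m
  have pw' : ∀ m n, n = 5 + 3 * k + m → Pre xw n ((win k).drop m) := by
    rintro m n rfl; exact pw.drop m
  have s0 : ¬ s (12 + 6 * k) := fun hs => by
    have := h.dev1 _ _ _ _ po (pw' 2 _ (by omega)) (by rw [hj]; exact pw) hs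
    rw [c0] at this; simp at this
  obtain ⟨-, i1, j1⟩ := h.two _ s0
  rw [hi] at i1; rw [hj] at j1
  rw [show 12 + 6 * k + 1 = 13 + 6 * k by ring] at i1 j1
  have s1 : s (13 + 6 * k) := by
    by_contra hs
    have := h.dev2 _ _ _ _ (po' 1 _ (by omega)) (pw' 2 _ (by omega)) (pw' 1 _ (by omega)) hs
    rw [c1] at this; simp at this
  obtain ⟨-, i2, j2⟩ := h.one _ s1
  rw [show 13 + 6 * k + 1 = 14 + 6 * k by ring] at i2 j2
  have s2 : s (14 + 6 * k) := by
    by_contra hs
    have := h.dev2 _ _ _ _ (po' 2 _ (by omega)) (pw' 3 _ (by omega)) (pw' 1 _ (by omega)) hs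
    rw [c2] at this; simp at this
  obtain ⟨-, i3, j3⟩ := h.one _ s2
  rw [show 14 + 6 * k + 1 = 15 + 6 * k by ring] at i3 j3
  have s3 : ¬ s (15 + 6 * k) := fun hs => by
    have := h.dev1 _ _ _ _ (po' 3 _ (by omega)) (pw' 4 _ (by omega)) (pw' 1 _ (by omega)) hs
    rw [c3] at this; simp at this
  obtain ⟨-, i4, j4⟩ := h.two _ s3
  rw [show 15 + 6 * k + 1 = 16 + 6 * k by ring] at i4 j4
  have s4 : ¬ s (16 + 6 * k) := fun hs => by
    have := h.dev1 _ _ _ _ (po' 4 _ (by omega)) (pw' 4 _ (by omega)) (pw' 2 _ (by omega)) hs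
    rw [c4] at this; simp at this
  obtain ⟨-, i5, j5⟩ := h.two _ s4
  rw [show 16 + 6 * k + 1 = 17 + 6 * k by ring] at i5 j5
  have s5 : s (17 + 6 * k) := by
    by_contra hs
    have := h.dev2 _ _ _ _ (po' 5 _ (by omega)) (pw' 4 _ (by omega)) (pw' 3 _ (by omega)) hs
    rw [c5] at this; simp at this
  obtain ⟨-, i6, j6⟩ := h.one _ s5
  rw [show 17 + 6 * k + 1 = 18 + 6 * k by ring] at i6 j6
  exact ⟨s0, s1, s2, s3, s4, s5, by omega, by omega⟩

theorem Path.unique (h : Path xw s i j) (h0 : s 0) (hinf : ∃ n, 8 ≤ n ∧ ¬ s n) (n : ℕ) :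
    s n ↔ st n := by
  have key : ∀ k, i (12 + 6 * k) = 7 + 3 * k ∧ j (12 + 6 * k) = 5 + 3 * k := by
    intro k
    induction k with
    | zero =>
      obtain ⟨h1, h2, -⟩ := h.mid h0 hinf 4 (by norm_num)
      exact ⟨h1, h2⟩
    | succ k ih =>
      obtain ⟨-, -, -, -, -, -, h1, h2⟩ := h.period k ih.1 ih.2
      exact ⟨by rw [show 12 + 6 * (k + 1) = 18 + 6 * k by ring, h1]; ring,
        by rw [show 12 + 6 * (k + 1) = 18 + 6 * k by ring, h2]; ring⟩
  by_cases h7 : n < 7
  · exact ⟨fun _ => Or.inl h7, fun _ => (h.start h0 n (by omega)).2.2 h7⟩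
  by_cases h12 : n < 12
  · constructor
    · intro hs
      exfalso
      by_cases h8 : n = 7
      · subst h8
        exact h.seven h0 hinf hs
      · obtain ⟨m, rfl⟩ : ∃ m, n = 8 + m := ⟨n - 8, by omega⟩
        exact (h.mid h0 hinf m (by omega)).2.2 (by omega) hs
    · rintro (h' | h')
      · omega
      · omega
  · obtain ⟨k, r, hr, rfl⟩ : ∃ k r, r < 6 ∧ n = 12 + r + 6 * k :=
      ⟨(n - 12) / 6, (n - 12) % 6, Nat.mod_lt _ (by norm_num), by omega⟩
    obtain ⟨s0, s1, s2, s3, s4, s5, -, -⟩ := h.period k (key k).1 (key k).2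
    unfold st
    interval_cases r
    · exact ⟨fun h => absurd h s0, fun h => by omega⟩
    · exact ⟨fun _ => by omega, fun _ => s1⟩
    · exact ⟨fun _ => by omega, fun _ => s2⟩
    · exact ⟨fun h => absurd h s3, fun h => by omega⟩
    · exact ⟨fun h => absurd h s4, fun h => by omega⟩
    · exact ⟨fun _ => by omega, fun _ => s5⟩

end Pool.Agent.R868.SSh
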