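import Mathlib

/-!
# A self-shuffling word with exactly one steering word

The word `xw` over seven letters: `x = 0 1 2 3 4 5 6 0 1 2 3 4 ...`, and from position `12` on it is
a shuffle of two copies of itself with the periodic steering `211221`.
-/

set_option autoImplicit false

namespace Pool.Agent.R868.SSh

/-- the word -/
def xw (n : ℕ) : ℕ :=
  if h : n < 7 then n
  else if h' : n < 12 then n - 7
  else if n % 6 = 0 then xw (5 + 3 * ((n - 12) / 6))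
  else if n % 6 = 1 then xw (7 + 3 * ((n - 12) / 6))
  else if n % 6 = 2 then xw (8 + 3 * ((n - 12) / 6))
  else if n % 6 = 3 then xw (6 + 3 * ((n - 12) / 6))
  else if n % 6 = 4 then xw (7 + 3 * ((n - 12) / 6))
  else xw (9 + 3 * ((n - 12) / 6))
termination_by n
decreasing_by all_goals omega

lemma xw_lt (n : ℕ) (h : n < 7) : xw n = n := by
  rw [xw, dif_pos h]

lemma xw_mid (n : ℕ) (h : 7 ≤ n) (h' : n < 12) : xw n = n - 7 := by
  rw [xw, dif_neg (by omega), dif_pos h']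

lemma xw_ge (n : ℕ) (h : 12 ≤ n) : xw n =
    if n % 6 = 0 then xw (5 + 3 * ((n - 12) / 6))
    else if n % 6 = 1 then xw (7 + 3 * ((n - 12) / 6))
    else if n % 6 = 2 then xw (8 + 3 * ((n - 12) / 6))
    else if n % 6 = 3 then xw (6 + 3 * ((n - 12) / 6))
    else if n % 6 = 4 then xw (7 + 3 * ((n - 12) / 6))
    else xw (9 + 3 * ((n - 12) / 6)) := by
  rw [xw, dif_neg (by omega), dif_neg (by omega)]

lemma xw0 (k : ℕ) : xw (12 + 6 * k) = xw (5 + 3 * k) := by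
  rw [xw_ge _ (by omega), if_pos (by omega)]
  congr 1; omega

lemma xw1 (k : ℕ) : xw (13 + 6 * k) = xw (7 + 3 * k) := by
  rw [xw_ge _ (by omega), if_neg (by omega), if_pos (by omega)]
  congr 1; omega

lemma xw2 (k : ℕ) : xw (14 + 6 * k) = xw (8 + 3 * k) := by
  rw [xw_ge _ (by omega), if_neg (by omega), if_neg (by omega), if_pos (by omega)]
  congr 1; omega

lemma xw3 (k : ℕ) : xw (15 + 6 * k) = xw (6 + 3 * k) := by
  rw [xw_ge _ (by omega), if_neg (by omega), if_neg (by omega), if_neg (by omega),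
    if_pos (by omega)]
  congr 1; omega

lemma xw4 (k : ℕ) : xw (16 + 6 * k) = xw (7 + 3 * k) := by
  rw [xw_ge _ (by omega), if_neg (by omega), if_neg (by omega), if_neg (by omega),
    if_neg (by omega), if_pos (by omega)]
  congr 1; omega

lemma xw5 (k : ℕ) : xw (17 + 6 * k) = xw (9 + 3 * k) := by
  rw [xw_ge _ (by omega), if_neg (by omega), if_neg (by omega), if_neg (by omega),
    if_neg (by omega), if_neg (by omega)]
  congr 1; omega

lemma xw_bound (n : ℕ) : xw n < 7 := by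
  induction n using Nat.strong_induction_on with
  | _ n ih =>
    by_cases h : n < 7
    · rw [xw_lt n h]; exact h
    · by_cases h' : n < 12
      · rw [xw_mid n (by omega) h']; omega
      · rw [xw_ge n (by omega)]
        split_ifs <;> exact ih _ (by omega)

/-- windows of length `11` at the positions `5 + 3 k` -/
def win (k : ℕ) : List ℕ :=
  [xw (5 + 3 * k), xw (6 + 3 * k), xw (7 + 3 * k), xw (8 + 3 * k), xw (9 + 3 * k),
    xw (10 + 3 * k), xw (11 + 3 * k), xw (12 + 3 * k), xw (13 + 3 * k), xw (14 + 3 * k),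
    xw (15 + 3 * k)]

def g (w : List ℕ) (i : ℕ) : ℕ := w.getD i 0

/-- the letters `x (12 + 6 k), ..., x (12 + 6 k + 17)` in terms of the window `win k` -/
def outs (w : List ℕ) : List ℕ :=
  [g w 0, g w 2, g w 3, g w 1, g w 2, g w 4, g w 3, g w 5, g w 6, g w 4, g w 5, g w 7,
    g w 6, g w 8, g w 9, g w 7, g w 8, g w 10]

def F2 (w : List ℕ) : List ℕ := ((outs w).drop 2).take 11
def F5 (w : List ℕ) : List ℕ := ((outs w).drop 5).take 11

def w0 : List ℕ := [5,6,0,1,2,3,4,5,0,1,6]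

def SS : List (List ℕ) := [
  [1,2,0,6,1,0,2,6,0,1,2],
  [1,2,3,4,1,3,2,4,3,1,2],
  [1,2,3,4,1,3,2,4,3,5,2],
  [1,2,3,4,5,0,1,6,0,2,1],
  [1,4,0,5,1,0,4,5,0,1,4],
  [1,4,0,5,1,0,6,5,0,1,6],
  [1,4,3,2,1,3,4,2,3,1,4],
  [1,4,3,2,1,3,4,2,3,5,4],
  [1,5,0,4,1,0,5,4,0,1,5],
  [1,5,0,6,1,0,2,6,0,1,2],
  [1,5,0,6,1,0,5,6,0,1,5],
  [1,6,0,2,1,0,6,2,0,1,6],
  [1,6,0,2,1,3,4,2,3,1,4],
  [1,6,0,2,1,3,4,2,3,5,4],
  [1,6,0,5,1,0,6,5,0,1,6],
  [2,1,0,6,2,0,1,6,0,2,1],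
  [2,1,3,4,2,3,1,4,3,2,1],
  [2,1,3,4,2,3,5,4,0,1,5],
  [2,1,3,4,2,3,5,4,3,2,5],
  [2,4,3,1,2,3,4,1,3,2,4],
  [2,4,3,5,2,3,4,5,0,1,4],
  [2,4,3,5,2,3,4,5,3,2,4],
  [2,5,3,4,2,3,5,4,0,1,5],
  [2,5,3,4,2,3,5,4,3,2,5],
  [2,6,0,1,2,0,6,1,0,2,6],
  [2,6,0,1,2,3,4,1,3,2,4],
  [4,1,0,5,4,0,1,5,0,4,1],
  [4,1,0,5,4,0,1,5,0,6,1],
  [4,1,3,2,4,3,1,2,3,4,1],
  [4,1,3,2,4,3,5,2,3,4,5],
  [4,2,3,1,4,3,2,1,3,4,2],
  [4,2,3,5,4,0,1,5,0,4,1],
  [4,2,3,5,4,0,1,5,0,6,1],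
  [4,2,3,5,4,3,2,5,3,4,2],
  [4,5,0,1,4,0,5,1,0,4,5],
  [4,5,0,1,4,0,5,1,0,6,5],
  [4,5,0,1,6,0,2,1,3,4,2],
  [4,5,3,2,4,3,5,2,3,4,5],
  [5,1,0,4,5,0,1,4,0,5,1],
  [5,1,0,6,5,0,1,6,0,2,1],
  [5,1,0,6,5,0,1,6,0,5,1],
  [5,2,3,4,5,0,1,4,0,5,1],
  [5,2,3,4,5,3,2,4,3,5,2],
  [5,4,0,1,5,0,4,1,0,5,4],
  [5,4,0,1,5,0,6,1,0,2,6],
  [5,4,0,1,5,0,6,1,0,5,6],
  [5,4,3,2,5,3,4,2,3,5,4],
  [5,6,0,1,5,0,6,1,0,2,6],
  [5,6,0,1,5,0,6,1,0,5,6],
  [6,1,0,2,6,0,1,2,0,6,1],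
  [6,1,0,2,6,0,1,2,3,4,1],
  [6,1,0,5,6,0,1,5,0,6,1],
  [6,2,0,1,6,0,2,1,0,6,2],
  [6,2,0,1,6,0,2,1,3,4,2],
  [6,5,0,1,6,0,2,1,0,6,2],
  [6,5,0,1,6,0,5,1,0,6,5]]

/-- `l` is the list of the letters of `x` from the position `n` on -/
def Pre (x : ℕ → ℕ) : ℕ → List ℕ → Prop
  | _, [] => True
  | n, a :: l => x n = a ∧ Pre x (n + 1) l

lemma Pre.drop {x : ℕ → ℕ} {n : ℕ} {l : List ℕ} (h : Pre x n l) (m : ℕ) :
    Pre x (n + m) (l.drop m) := by
  induction m generalizing n l with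
  | zero => simpa using h
  | succ m ih =>
    cases l with
    | nil => simp [Pre]
    | cons a l =>
      have := ih h.2
      rw [List.drop_succ_cons]
      rwa [show n + (m + 1) = n + 1 + m by ring]

lemma pre_win (k : ℕ) : Pre xw (5 + 3 * k) (win k) := by
  simp only [win, Pre, and_true]
  refine ⟨trivial, ?_, ?_, ?_, ?_, ?_, ?_, ?_, ?_, ?_, ?_⟩ <;> congr 1 <;> ring

lemma pre_outs (k : ℕ) : Pre xw (12 + 6 * k) (outs (win k)) := by
  have e0 : ∀ m, xw (18 + 6 * m) = xw (8 + 3 * m) := fun m => by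
    rw [show 18 + 6 * m = 12 + 6 * (m + 1) by ring, xw0]; congr 1; ring
  have e1 : ∀ m, xw (19 + 6 * m) = xw (10 + 3 * m) := fun m => by
    rw [show 19 + 6 * m = 13 + 6 * (m + 1) by ring, xw1]; congr 1; ring
  have e2 : ∀ m, xw (20 + 6 * m) = xw (11 + 3 * m) := fun m => by
    rw [show 20 + 6 * m = 14 + 6 * (m + 1) by ring, xw2]; congr 1; ring
  have e3 : ∀ m, xw (21 + 6 * m) = xw (9 + 3 * m) := fun m => by
    rw [show 21 + 6 * m = 15 + 6 * (m + 1) by ring, xw3]; congr 1; ring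
  have e4 : ∀ m, xw (22 + 6 * m) = xw (10 + 3 * m) := fun m => by
    rw [show 22 + 6 * m = 16 + 6 * (m + 1) by ring, xw4]; congr 1; ring
  have e5 : ∀ m, xw (23 + 6 * m) = xw (12 + 3 * m) := fun m => by
    rw [show 23 + 6 * m = 17 + 6 * (m + 1) by ring, xw5]; congr 1; ring
  have f0 : ∀ m, xw (24 + 6 * m) = xw (11 + 3 * m) := fun m => by
    rw [show 24 + 6 * m = 12 + 6 * (m + 2) by ring, xw0]; congr 1; ring
  have f1 : ∀ m, xw (25 + 6 * m) = xw (13 + 3 * m) := fun m => by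
    rw [show 25 + 6 * m = 13 + 6 * (m + 2) by ring, xw1]; congr 1; ring
  have f2 : ∀ m, xw (26 + 6 * m) = xw (14 + 3 * m) := fun m => by
    rw [show 26 + 6 * m = 14 + 6 * (m + 2) by ring, xw2]; congr 1; ring
  have f3 : ∀ m, xw (27 + 6 * m) = xw (12 + 3 * m) := fun m => by
    rw [show 27 + 6 * m = 15 + 6 * (m + 2) by ring, xw3]; congr 1; ring
  have f4 : ∀ m, xw (28 + 6 * m) = xw (13 + 3 * m) := fun m => by
    rw [show 28 + 6 * m = 16 + 6 * (m + 2) by ring, xw4]; congr 1; ring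
  have f5 : ∀ m, xw (29 + 6 * m) = xw (15 + 3 * m) := fun m => by
    rw [show 29 + 6 * m = 17 + 6 * (m + 2) by ring, xw5]; congr 1; ring
  simp only [outs, Pre, g, win, List.getD_cons_zero, List.getD_cons_succ, and_true]
  refine ⟨xw0 k, ?_, ?_, ?_, ?_, ?_, ?_, ?_, ?_, ?_, ?_, ?_, ?_, ?_, ?_, ?_, ?_, ?_⟩
  · rw [← xw1]; congr 1; ring
  · rw [← xw2]; congr 1; ring
  · rw [← xw3]; congr 1; ring
  · rw [← xw4]; congr 1; ring
  · rw [← xw5]; congr 1; ring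
  · rw [← e0]; congr 1; ring
  · rw [← e1]; congr 1; ring
  · rw [← e2]; congr 1; ring
  · rw [← e3]; congr 1; ring
  · rw [← e4]; congr 1; ring
  · rw [← e5]; congr 1; ring
  · rw [← f0]; congr 1; ring
  · rw [← f1]; congr 1; ring
  · rw [← f2]; congr 1; ring
  · rw [← f3]; congr 1; ring
  · rw [← f4]; congr 1; ring
  · rw [← f5]; congr 1; ring

lemma Pre.take {x : ℕ → ℕ} {n : ℕ} {l : List ℕ} (h : Pre x n l) (m : ℕ) :
    Pre x n (l.take m) := by
  induction m generalizing n l with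
  | zero => simp [Pre]
  | succ m ih =>
    cases l with
    | nil => simp [Pre]
    | cons a l => exact ⟨h.1, ih h.2⟩

lemma Pre.unique {x : ℕ → ℕ} {n : ℕ} {l l' : List ℕ} (h : Pre x n l) (h' : Pre x n l')
    (hl : l.length = l'.length) : l = l' := by
  induction l generalizing n l' with
  | nil => cases l' with
    | nil => rfl
    | cons a l => simp at hl
  | cons a l ih =>
    cases l' with
    | nil => simp at hl
    | cons b l' =>
      rw [← h.1, ← h'.1, ih h.2 h'.2 (by simpa using hl)]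

lemma win_F2 (k : ℕ) : win (3 + 2 * k) = F2 (win k) := by
  refine Pre.unique (pre_win _) (n := 5 + 3 * (3 + 2 * k)) ?_ (by simp [win, F2, outs])
  have := ((pre_outs k).drop 2).take 11
  rwa [show 12 + 6 * k + 2 = 5 + 3 * (3 + 2 * k) by ring] at this

lemma win_F5 (k : ℕ) : win (4 + 2 * k) = F5 (win k) := by
  refine Pre.unique (pre_win _) (n := 5 + 3 * (4 + 2 * k)) ?_ (by simp [win, F5, outs])
  have := ((pre_outs k).drop 5).take 11
  rwa [show 12 + 6 * k + 5 = 5 + 3 * (4 + 2 * k) by ring] at this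

lemma closed : (w0 :: SS).all (fun w => SS.contains (F2 w) && SS.contains (F5 w)) = true := by
  decide +kernel

lemma xv : xw 12 = 5 ∧ xw 13 = 0 ∧ xw 14 = 1 ∧ xw 15 = 6 ∧ xw 16 = 0 ∧ xw 17 = 2 ∧ xw 18 = 1 ∧
    xw 19 = 3 ∧ xw 20 = 4 ∧ xw 21 = 2 := by
  refine ⟨?_, ?_, ?_, ?_, ?_, ?_, ?_, ?_, ?_, ?_⟩
  · rw [show (12 : ℕ) = 12 + 6 * 0 by rfl, xw0, xw_lt _ (by norm_num)]
  · rw [show (13 : ℕ) = 13 + 6 * 0 by rfl, xw1, xw_mid _ (by norm_num) (by norm_num)]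
  · rw [show (14 : ℕ) = 14 + 6 * 0 by rfl, xw2, xw_mid _ (by norm_num) (by norm_num)]
  · rw [show (15 : ℕ) = 15 + 6 * 0 by rfl, xw3, xw_lt _ (by norm_num)]
  · rw [show (16 : ℕ) = 16 + 6 * 0 by rfl, xw4, xw_mid _ (by norm_num) (by norm_num)]
  · rw [show (17 : ℕ) = 17 + 6 * 0 by rfl, xw5, xw_mid _ (by norm_num) (by norm_num)]
  · rw [show (18 : ℕ) = 12 + 6 * 1 by rfl, xw0, xw_mid _ (by norm_num) (by norm_num)]
  · rw [show (19 : ℕ) = 13 + 6 * 1 by rfl, xw1, xw_mid _ (by norm_num) (by norm_num)]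
  · rw [show (20 : ℕ) = 14 + 6 * 1 by rfl, xw2, xw_mid _ (by norm_num) (by norm_num)]
  · rw [show (21 : ℕ) = 15 + 6 * 1 by rfl, xw3, xw_mid _ (by norm_num) (by norm_num)]

lemma win_zero : win 0 = w0 := by
  obtain ⟨h12, h13, h14, h15, -⟩ := xv
  simp only [win, mul_zero, add_zero, h12, h13, h14, h15]
  rw [xw_lt 5 (by norm_num), xw_lt 6 (by norm_num), xw_mid 7 (by norm_num) (by norm_num),
    xw_mid 8 (by norm_num) (by norm_num), xw_mid 9 (by norm_num) (by norm_num),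
    xw_mid 10 (by norm_num) (by norm_num), xw_mid 11 (by norm_num) (by norm_num)]
  rfl

lemma win_one : win 1 ∈ SS := by
  obtain ⟨h12, h13, h14, h15, h16, h17, h18, -⟩ := xv
  have e : win 1 = [1, 2, 3, 4, 5, 0, 1, 6, 0, 2, 1] := by
    simp only [win, mul_one]
    norm_num only
    rw [h12, h13, h14, h15, h16, h17, h18,
      xw_mid 8 (by norm_num) (by norm_num), xw_mid 9 (by norm_num) (by norm_num),
      xw_mid 10 (by norm_num) (by norm_num), xw_mid 11 (by norm_num) (by norm_num)]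
  rw [e]
  decide +kernel

lemma win_two : win 2 ∈ SS := by
  obtain ⟨h12, h13, h14, h15, h16, h17, h18, h19, h20, h21⟩ := xv
  have e : win 2 = [4, 5, 0, 1, 6, 0, 2, 1, 3, 4, 2] := by
    simp only [win]
    norm_num only
    rw [h12, h13, h14, h15, h16, h17, h18, h19, h20, h21,
      xw_mid 11 (by norm_num) (by norm_num)]
  rw [e]
  decide +kernel

lemma mem_all (k : ℕ) : win k ∈ w0 :: SS ∧ (1 ≤ k → win k ∈ SS) := by
  induction k using Nat.strong_induction_on with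
  | _ k ih =>
    have hc : ∀ w ∈ w0 :: SS, F2 w ∈ SS ∧ F5 w ∈ SS := by
      intro w hw
      have := List.all_eq_true.1 closed w hw
      simpa using this
    by_cases h0 : k = 0
    · subst h0
      rw [win_zero]
      simp
    by_cases h1 : k = 1
    · subst h1
      exact ⟨List.mem_cons_of_mem _ win_one, fun _ => win_one⟩
    by_cases h2 : k = 2
    · subst h2
      exact ⟨List.mem_cons_of_mem _ win_two, fun _ => win_two⟩
    have : win k ∈ SS := by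
      rcases Nat.even_or_odd' (k - 3) with ⟨m, hm | hm⟩
      · have : k = 3 + 2 * m := by omega
        rw [this, win_F2]
        exact (hc _ (ih m (by omega)).1).1
      · have : k = 4 + 2 * m := by omega
        rw [this, win_F5]
        exact (hc _ (ih m (by omega)).1).2
    exact ⟨List.mem_cons_of_mem _ this, fun _ => this⟩

end Pool.Agent.R868.SSh
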